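import Pool.Agent.Helper33.NI.Isl

/-!
# BM: laminar families of cubes with moats

`Q N m c`: the family contains the cube with side `N` at `m` (the cube `m + [0, N)^d`), its color is `c`.  Over each face
of a cube there is a moat: the cells with height `t` over the face `i` and `t ≤ ∑_{j ≠ i} dst_j`, where `dst_j` is the
distance of the `j`-th coordinate to the nearer end.  The label of a cell: the color of the first (smallest) cube
containing it, the parity of its position in this cube, the height mod 3 in a moat.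
-/

set_option autoImplicit false

namespace BM

open EB NI

/-- the labels -/
abbrev Lb : Type := ZMod 3 × Bool × Option (ZMod 3)

/-- the margin of a cube with side `N` -/
def mg (d N : ℕ) : ℤ := (d : ℤ) * N + 2

theorem mg_two (d N : ℕ) : 2 ≤ mg d N := by
  have : (0 : ℤ) ≤ (d : ℤ) * N := by positivity
  unfold mg
  omega

/-- the distance to the nearer end of `[0, N)` -/
def dst (N : ℕ) (t : ℤ) : ℤ := min t (N - 1 - t)

/-- the cell with position `p` has height `t` in the moat over the face `i` of a cube with side `N` -/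
def MoatI {d : ℕ} (N : ℕ) (p : Gd d) (i : Fin d) (t : ℤ) : Prop :=
  0 ≤ t ∧ (p i = N + t ∨ p i = -1 - t) ∧ (∀ j, j ≠ i → 0 ≤ p j ∧ p j < N) ∧
    t ≤ ∑ j ∈ Finset.univ.erase i, dst N (p j)

/-- the cell with position `p` has height `t` in a moat of a cube with side `N` -/
def Moat {d : ℕ} (N : ℕ) (p : Gd d) (t : ℤ) : Prop := ∃ i, MoatI N p i t

/-- the cube `(N, m)` with its margin is inside the cube `(N', m')`, off the outer layer -/
def Ins {d : ℕ} (N : ℕ) (m : Gd d) (N' : ℕ) (m' : Gd d) : Prop :=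
  ∀ i, m' i + 1 + mg d N ≤ m i ∧ m i + N + mg d N + 1 ≤ m' i + N'

/-- the cubes with their margins are disjoint -/
def Dis {d : ℕ} (N : ℕ) (m : Gd d) (N' : ℕ) (m' : Gd d) : Prop :=
  ∃ i, m i + N + mg d N ≤ m' i - mg d N' ∨ m' i + N' + mg d N' ≤ m i - mg d N

/-- a laminar family of cubes which covers the grid -/
structure Lam {d : ℕ} (Q : ℕ → Gd d → ZMod 3 → Prop) : Prop where
  pos : ∀ N m c, Q N m c → 1 ≤ N
  lam : ∀ N m c N' m' c', Q N m c → Q N' m' c' → N ≤ N' →
    (N = N' ∧ m = m' ∧ c = c') ∨ Ins N m N' m' ∨ Dis N m N' m'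
  cov : ∀ g, ∃ N m c, Q N m c ∧ Sh 0 N (g - m)
  col : ∀ N m c N' m' c', Q N m c → Q N' m' c' → Ins N m N' m' →
    (∀ N'' m'' c'', Q N'' m'' c'' → Ins N m N'' m'' → N' ≤ N'') → c' = c + 1

/-- `(N, m)` is the smallest cube containing `g` -/
def Fst {d : ℕ} (Q : ℕ → Gd d → ZMod 3 → Prop) (g : Gd d) (N : ℕ) (m : Gd d) (c : ZMod 3) : Prop :=
  Q N m c ∧ Sh 0 N (g - m) ∧ ∀ N' m' c', Q N' m' c' → Sh 0 N' (g - m') → N ≤ N'

/-- the cell `g` is in a moat, `s` is the height mod 3 -/
def InM {d : ℕ} (Q : ℕ → Gd d → ZMod 3 → Prop) (g : Gd d) (s : ZMod 3) : Prop :=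
  ∃ N m c t, Q N m c ∧ Moat N (g - m) t ∧ (t : ZMod 3) = s

/-- `y` is the label of the cell `g` -/
def IsLb {d : ℕ} (Q : ℕ → Gd d → ZMod 3 → Prop) (g : Gd d) (y : Lb) : Prop :=
  (∃ N m, Fst Q g N m y.1 ∧ y.2.1 = par (∑ i, (g - m) i)) ∧ ∀ s, y.2.2 = some s ↔ InM Q g s

/-! ### one cube -/

theorem mg_bound {d N : ℕ} {p : Gd d} {i : Fin d} {t : ℤ} (h : MoatI N p i t) : t ≤ (d : ℤ) * N := by
  obtain ⟨_, _, h3, h4⟩ := h
  refine h4.trans ?_
  have h5 : ∀ j ∈ Finset.univ.erase i, dst N (p j) ≤ (N : ℤ) := by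
    intro j hj
    have h6 := h3 j (Finset.ne_of_mem_erase hj)
    unfold dst
    exact (min_le_left _ _).trans h6.2.le
  refine (Finset.sum_le_card_nsmul _ _ _ h5).trans ?_
  rw [nsmul_eq_mul]
  refine mul_le_mul_of_nonneg_right ?_ (by positivity)
  have h7 : (Finset.univ.erase i).card ≤ d := by
    refine (Finset.card_erase_le).trans ?_
    simp
  exact_mod_cast h7

/-- a moat is in the margin -/
theorem moat_sh {d N : ℕ} {p : Gd d} {t : ℤ} (h : Moat N p t) : Sh (-(mg d N - 1)) N p := by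
  obtain ⟨i, h⟩ := h
  have hb := mg_bound h
  have hp : (0 : ℤ) ≤ (d : ℤ) * N := by positivity
  obtain ⟨h1, h2, h3, _⟩ := h
  intro j
  unfold mg
  by_cases hj : j = i
  · rw [hj]
    omega
  · have := h3 j hj
    omega

theorem moat_not {d N : ℕ} {p : Gd d} {t : ℤ} (h : Moat N p t) : ¬ Sh 0 N p := by
  obtain ⟨i, h1, h2, _⟩ := h
  intro h3
  have := h3 i
  omega

/-- the face and the height are determined by the coordinate which is out of `[0, N)` -/
theorem moat_of_out {d N : ℕ} {p : Gd d} {t : ℤ} {i : Fin d} (h : Moat N p t)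
    (hi : ¬ (0 ≤ p i ∧ p i < N)) : MoatI N p i t := by
  obtain ⟨j, h⟩ := h
  by_cases hj : i = j
  · rw [hj]
    exact h
  · exact absurd (h.2.2.1 i hj) hi

theorem moatI_out {d N : ℕ} {p : Gd d} {t : ℤ} {i : Fin d} (h : MoatI N p i t) :
    ¬ (0 ≤ p i ∧ p i < N) := by
  have h1 := h.1
  have h2 := h.2.1
  omega

theorem moat_uniq {d N : ℕ} {p : Gd d} {t t' : ℤ} (h : Moat N p t) (h' : Moat N p t') : t = t' := by
  obtain ⟨i, h⟩ := h
  have h2 := moat_of_out h' (moatI_out h)
  have h3 := h.1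
  have h4 := h.2.1
  have h5 := h2.1
  have h6 := h2.2.1
  omega

/-- if both neighbours in the direction `j` are in the moat then the next height is allowed -/
theorem moat_step {d N : ℕ} {v p p' : Gd d} {i j : Fin d} {t t1 t2 : ℤ} (hj : j ≠ i)
    (h : MoatI N v i t) (hp : p = v + un j) (hp' : p' = v - un j) (h1 : Moat N p t1)
    (h2 : Moat N p' t2) : t + 1 ≤ ∑ k ∈ Finset.univ.erase i, dst N (v k) := by
  have hji : un j i = 0 := by simp [un, hj.symm]
  have hjj : un j j = 1 := by simp [un]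
  have ho := moatI_out h
  have e1 : p i = v i := by rw [hp, Pi.add_apply, hji, add_zero]
  have e2 : p' i = v i := by rw [hp', Pi.sub_apply, hji, sub_zero]
  have m1 : MoatI N p i t1 := moat_of_out h1 (by rw [e1]; exact ho)
  have m2 : MoatI N p' i t2 := moat_of_out h2 (by rw [e2]; exact ho)
  have t1e : t1 = t := by
    have a1 := m1.1
    have a2 := m1.2.1
    have a3 := h.1
    have a4 := h.2.1
    rw [e1] at a2
    omega
  have t2e : t2 = t := by
    have a1 := m2.1
    have a2 := m2.2.1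
    have a3 := h.1
    have a4 := h.2.1
    rw [e2] at a2
    omega
  have hjm : j ∈ Finset.univ.erase i := Finset.mem_erase.2 ⟨hj, Finset.mem_univ j⟩
  have s0 := Finset.add_sum_erase _ (fun k => dst N (v k)) hjm
  have s1 := Finset.add_sum_erase _ (fun k => dst N (p k)) hjm
  have s2 := Finset.add_sum_erase _ (fun k => dst N (p' k)) hjm
  have r1 : ∑ k ∈ (Finset.univ.erase i).erase j, dst N (p k) =
      ∑ k ∈ (Finset.univ.erase i).erase j, dst N (v k) := by
    refine Finset.sum_congr rfl fun k hk => ?_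
    have : k ≠ j := Finset.ne_of_mem_erase hk
    rw [hp, Pi.add_apply, show un j k = 0 by simp [un, this], add_zero]
  have r2 : ∑ k ∈ (Finset.univ.erase i).erase j, dst N (p' k) =
      ∑ k ∈ (Finset.univ.erase i).erase j, dst N (v k) := by
    refine Finset.sum_congr rfl fun k hk => ?_
    have : k ≠ j := Finset.ne_of_mem_erase hk
    rw [hp', Pi.sub_apply, show un j k = 0 by simp [un, this], sub_zero]
  have b1 := m1.2.2.2
  have b2 := m2.2.2.2
  rw [← s1, r1, t1e] at b1
  rw [← s2, r2, t2e] at b2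
  rw [← s0]
  have p1 : p j = v j + 1 := by rw [hp, Pi.add_apply, hjj]
  have p2 : p' j = v j - 1 := by rw [hp', Pi.sub_apply, hjj]
  rw [p1] at b1
  rw [p2] at b2
  have hd : dst N (v j + 1) + 1 ≤ dst N (v j) ∨ dst N (v j - 1) + 1 ≤ dst N (v j) := by
    unfold dst
    omega
  rcases hd with hd | hd <;> omega

end BM
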