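import Pool.Agent.Helper33.BM.Fam

/-!
# BM: first cubes and moats of adjacent cells
-/

set_option autoImplicit false

namespace BM

open EB NI

variable {d : ℕ} {Q : ℕ → Gd d → ZMod 3 → Prop}

theorem z_ne (c : ZMod 3) : c ≠ c + 1 := by
  revert c
  decide

theorem z_ne2 (c : ZMod 3) : c ≠ c + 1 + 1 := by
  revert c
  decide

theorem sh_exp {r : ℤ} {N : ℕ} {p : Gd d} (h : Sh 0 N p) (hr : 0 ≤ r) : Sh (-r) N p := by
  intro i
  have := h i
  omega

theorem sh_near {r : ℤ} {N : ℕ} {p p' : Gd d} (h : Sh r N p) (hg : ∀ i, |p i - p' i| ≤ 1) :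
    Sh (r - 1) N p' := by
  intro i
  have h1 := h i
  have h2 := abs_le.1 (hg i)
  omega

/-- the margin of the inner cube is inside the outer one, off the outer layer -/
theorem ins_sh {N N' : ℕ} {m m' g : Gd d} (h : Ins N m N' m') (hg : Sh (-mg d N) N (g - m)) :
    Sh 1 N' (g - m') := by
  intro i
  have h1 := h i
  have h2 := hg i
  simp only [Pi.sub_apply] at h2 ⊢
  omega

theorem dis_sh {N N' : ℕ} {m m' g : Gd d} (h : Dis N m N' m') (hg : Sh (-mg d N) N (g - m))
    (hg' : Sh (-mg d N') N' (g - m')) : False := by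
  obtain ⟨i, h⟩ := h
  have h1 := hg i
  have h2 := hg' i
  simp only [Pi.sub_apply] at h1 h2
  omega

theorem Lam.exists_fst (hQ : Lam Q) (g : Gd d) : ∃ N m c, Fst Q g N m c := by
  classical
  have h : ∃ N, ∃ m c, Q N m c ∧ Sh 0 N (g - m) := hQ.cov g
  obtain ⟨m, c, hm, hs⟩ := Nat.find_spec h
  exact ⟨Nat.find h, m, c, hm, hs, fun N' m' c' h1 h2 => Nat.find_min' h ⟨m', c', h1, h2⟩⟩

theorem Lam.fst_uniq (hd : 0 < d) (hQ : Lam Q) {g : Gd d} {N N' : ℕ} {m m' : Gd d} {c c' : ZMod 3}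
    (h : Fst Q g N m c) (h' : Fst Q g N' m' c') : N = N' ∧ m = m' ∧ c = c' := by
  have hN : N = N' := le_antisymm (h.2.2 N' m' c' h'.1 h'.2.1) (h'.2.2 N m c h.1 h.2.1)
  rcases hQ.lam N m c N' m' c' h.1 h'.1 hN.le with h1 | h1 | h1
  · exact h1
  · have h2 := h1 ⟨0, hd⟩
    have h3 := mg_two d N
    omega
  · exact (dis_sh h1 (sh_exp h.2.1 (by have := mg_two d N; omega))
      (sh_exp h'.2.1 (by have := mg_two d N'; omega))).elim

/-- the first cubes of two adjacent cells: one direction -/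
theorem Lam.adj_aux (hQ : Lam Q) {g g' : Gd d} (hg : ∀ i, |g i - g' i| ≤ 1) (hd : 0 < d)
    {N N' : ℕ} {m m' : Gd d} {c c' : ZMod 3} (h : Fst Q g N m c) (h' : Fst Q g' N' m' c')
    (hN : N ≤ N') : (N = N' ∧ m = m' ∧ c = c') ∨
      (¬ Sh 0 N (g' - m) ∧ Ins N m N' m' ∧ c' = c + 1) := by
  have hne : Sh (-mg d N) N (g' - m) := by
    have h1 : Sh (0 - 1) N (g' - m) := sh_near h.2.1 fun i => by
      simpa only [Pi.sub_apply, sub_sub_sub_cancel_right] using hg i
    intro i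
    have h2 := h1 i
    have h3 := mg_two d N
    omega
  rcases hQ.lam N m c N' m' c' h.1 h'.1 hN with h1 | h1 | h1
  · exact Or.inl h1
  · right
    refine ⟨fun h2 => ?_, h1, ?_⟩
    · have h3 := h'.2.2 N m c h.1 h2
      have h4 := h1 ⟨0, hd⟩
      have h5 := mg_two d N
      omega
    · refine hQ.col N m c N' m' c' h.1 h'.1 h1 fun N'' m'' c'' h2 h3 => ?_
      refine h'.2.2 N'' m'' c'' h2 ?_
      have h4 := ins_sh h3 hne
      intro i
      have := h4 i
      omega
  · exact (dis_sh h1 hne (sh_exp h'.2.1 (by have := mg_two d N'; omega))).elim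

/-- the first cubes of two adjacent cells -/
theorem Lam.adj (hQ : Lam Q) {g g' : Gd d} (hg : ∀ i, |g i - g' i| ≤ 1) (hd : 0 < d)
    {N N' : ℕ} {m m' : Gd d} {c c' : ZMod 3} (h : Fst Q g N m c) (h' : Fst Q g' N' m' c') :
    (N = N' ∧ m = m' ∧ c = c') ∨ (¬ Sh 0 N (g' - m) ∧ Ins N m N' m' ∧ c' = c + 1) ∨
      (¬ Sh 0 N' (g - m') ∧ Ins N' m' N m ∧ c = c' + 1) := by
  rcases le_total N N' with hN | hN
  · rcases hQ.adj_aux hg hd h h' hN with h1 | h1
    · exact Or.inl h1
    · exact Or.inr (Or.inl h1)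
  · rcases hQ.adj_aux (fun i => by rw [abs_sub_comm]; exact hg i) hd h' h hN with h1 | h1
    · exact Or.inl ⟨h1.1.symm, h1.2.1.symm, h1.2.2.symm⟩
    · exact Or.inr (Or.inr h1)

/-- two adjacent cells in moats: the moats belong to the same cube -/
theorem Lam.moat_cube (hQ : Lam Q) {g g' : Gd d} (hg : ∀ i, |g i - g' i| ≤ 1)
    {N N' : ℕ} {m m' : Gd d} {c c' : ZMod 3} {t t' : ℤ} (h : Q N m c) (h' : Q N' m' c')
    (hm : Moat N (g - m) t) (hm' : Moat N' (g' - m') t') : N = N' ∧ m = m' ∧ c = c' := by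
  have key : ∀ (g g' : Gd d) (_ : ∀ i, |g i - g' i| ≤ 1) (N N' : ℕ) (m m' : Gd d) (c c' : ZMod 3)
      (t t' : ℤ), Q N m c → Q N' m' c' → Moat N (g - m) t → Moat N' (g' - m') t' → N ≤ N' →
      N = N' ∧ m = m' ∧ c = c' := by
    intro g g' hg N N' m m' c c' t t' h h' hm hm' hN
    have e1 := moat_sh hm
    have e2 : Sh (-(mg d N - 1) - 1) N (g' - m) := sh_near e1 fun i => by
      simpa only [Pi.sub_apply, sub_sub_sub_cancel_right] using hg i
    rw [show -(mg d N - 1) - 1 = -mg d N by ring] at e2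
    rcases hQ.lam N m c N' m' c' h h' hN with h1 | h1 | h1
    · exact h1
    · have h2 := ins_sh h1 e2
      refine absurd (fun i => ?_) (moat_not hm')
      have := h2 i
      omega
    · refine (dis_sh h1 e2 fun i => ?_).elim
      have := moat_sh hm' i
      omega
  rcases le_total N N' with hN | hN
  · exact key g g' hg N N' m m' c c' t t' h h' hm hm' hN
  · have h1 := key g' g (fun i => by rw [abs_sub_comm]; exact hg i) N' N m' m c' c t' t h' h hm' hm hN
    exact ⟨h1.1.symm, h1.2.1.symm, h1.2.2.symm⟩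

/-- a cell of a cube with a neighbour out of the cube is in no moat -/
theorem Lam.no_moat (hQ : Lam Q) {g g' : Gd d} (hg : ∀ i, |g i - g' i| ≤ 1) {N N' : ℕ}
    {m m' : Gd d} {c c' : ZMod 3} {t : ℤ} (h : Q N m c) (h' : Q N' m' c') (hs : Sh 0 N (g - m))
    (hs' : ¬ Sh 0 N (g' - m)) (hm : Moat N' (g - m') t) : False := by
  have e1 : Sh (-mg d N') N' (g - m') := fun i => by
    have := moat_sh hm i
    omega
  have e2 : Sh (-mg d N) N (g - m) := sh_exp hs (by have := mg_two d N; omega)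
  have e3 : Ins N' m' N m → False := by
    intro h1
    have h2 := ins_sh h1 e1
    apply hs'
    have h3 := sh_near (p' := g' - m) h2 fun i => by
      simpa only [Pi.sub_apply, sub_sub_sub_cancel_right] using hg i
    intro i
    have := h3 i
    omega
  have e4 : Ins N m N' m' → False := by
    intro h1
    have h2 := ins_sh h1 e2
    refine moat_not hm fun i => ?_
    have := h2 i
    omega
  rcases le_total N N' with hN | hN
  · rcases hQ.lam N m c N' m' c' h h' hN with h1 | h1 | h1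
    · obtain ⟨rfl, rfl, _⟩ := h1
      exact moat_not hm hs
    · exact e4 h1
    · exact dis_sh h1 e2 e1
  · rcases hQ.lam N' m' c' N m c h' h hN with h1 | h1 | h1
    · obtain ⟨rfl, rfl, _⟩ := h1
      exact moat_not hm hs
    · exact e3 h1
    · exact dis_sh h1 e1 e2

/-- the label of a cell exists and is unique -/
theorem Lam.exists_unique (hd : 0 < d) (hQ : Lam Q) (g : Gd d) : ∃! y, IsLb Q g y := by
  classical
  obtain ⟨N, m, c, h⟩ := hQ.exists_fst g
  have hq : ∃ q : Option (ZMod 3), ∀ s, q = some s ↔ InM Q g s := by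
    by_cases h1 : ∃ s, InM Q g s
    · obtain ⟨s, h1⟩ := h1
      refine ⟨some s, fun s' => ⟨fun h2 => ?_, fun h2 => ?_⟩⟩
      · rw [← Option.some_inj.1 h2]
        exact h1
      · obtain ⟨N1, m1, c1, t1, a1, a2, a3⟩ := h1
        obtain ⟨N2, m2, c2, t2, b1, b2, b3⟩ := h2
        obtain ⟨rfl, rfl, rfl⟩ := hQ.moat_cube (fun i => by simp) a1 b1 a2 b2
        rw [← a3, ← b3, moat_uniq a2 b2]
    · push Not at h1
      exact ⟨none, fun s => ⟨fun h2 => by simp at h2, fun h2 => absurd h2 (h1 s)⟩⟩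
  obtain ⟨q, hq⟩ := hq
  refine ⟨(c, par (∑ i, (g - m) i), q), ⟨⟨N, m, h, rfl⟩, hq⟩, ?_⟩
  rintro ⟨c', b', q'⟩ ⟨⟨N', m', h1, h2⟩, h3⟩
  obtain ⟨rfl, rfl, rfl⟩ := hQ.fst_uniq hd h h1
  simp only at h2 h3
  rw [h2]
  have : q' = q := by
    refine Option.ext fun s => ?_
    have e1 : q' = some s ↔ q = some s := (h3 s).trans (hq s).symm
    simpa using e1
  rw [this]

end BM
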