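import Pool.Agent.Helper33.BM.FamB

/-!
# BM: the labelling of a laminar family satisfies the rules
-/

set_option autoImplicit false

namespace BM

open EB NI

/-- The rules for a labelling of the grid. -/
structure BConf {d : ℕ} (y : Gd d → Lb) : Prop where
  edge : ∀ g i, (y g).1 = (y (g + un i)).1 → (y g).2.1 ≠ (y (g + un i)).2.1
  quad : ∀ g i j, i ≠ j → Quad (y g).1 (y (g + un i)).1 (y (g + un i + un j)).1 (y (g + un j)).1
  m1 : ∀ u w i, (w = u + un i ∨ u = w + un i) → (y w).1 = (y u).1 + 1 →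
    (y u).2.2 = none ∧ (y w).2.2 = some 0
  m2 : ∀ v i j, i ≠ j → ∀ u w, ((u = v - un i ∧ w = v + un i) ∨ (u = v + un i ∧ w = v - un i)) →
    ∀ k, (y v).2.2 = some k → ((k = 0 ∧ (y v).1 = (y u).1 + 1) ∨ (y u).2.2 = some (k - 1)) →
    (y (v + un j)).2.2 = some k → (y (v - un j)).2.2 = some k → (y w).2.2 = some (k + 1)

variable {d : ℕ} {Q : ℕ → Gd d → ZMod 3 → Prop}

theorem un_ap (i k : Fin d) : un i k = if k = i then 1 else 0 := by
  simp [un, Pi.single_apply]

theorem near_un (u w : Gd d) (i : Fin d) (h : w = u + un i ∨ u = w + un i) :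
    ∀ k, |u k - w k| ≤ 1 := by
  intro k
  rw [abs_le]
  rcases h with rfl | rfl <;> simp only [Pi.add_apply, un_ap] <;> split_ifs <;> omega

theorem z_pm (k : ZMod 3) : k + 1 = k - 1 → False := by
  revert k
  decide

theorem z_m (k : ZMod 3) : k = k - 1 → False := by
  revert k
  decide

/-- the cell next to a face is in the moat, at height 0 -/
theorem face_moat {N : ℕ} {p p' : Gd d} {i : Fin d} (h : Sh 0 N p) (h' : ¬ Sh 0 N p')
    (hi : p' = p + un i ∨ p = p' + un i) : Moat N p' 0 := by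
  have ho : ∀ k, k ≠ i → p' k = p k := by
    intro k hk
    rcases hi with rfl | rfl <;> simp [un_ap, hk]
  have hii : p' i = p i + 1 ∨ p' i = p i - 1 := by
    rcases hi with rfl | rfl <;> simp [un_ap]
  have hin : ∀ j, j ≠ i → 0 ≤ p' j ∧ p' j < N := by
    intro j hj
    rw [ho j hj]
    have := h j
    omega
  refine ⟨i, le_rfl, ?_, hin, Finset.sum_nonneg fun j hj => ?_⟩
  · by_contra hcon
    apply h'
    intro k
    by_cases hk : k = i
    · have := h i
      rw [hk]
      omega
    · have := hin k hk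
      omega
  · have := hin j (Finset.ne_of_mem_erase hj)
    unfold dst
    omega

theorem Lam.exit_cube (hd : 0 < d) (hQ : Lam Q) {y : Gd d → Lb} (hy : ∀ g, IsLb Q g (y g))
    {u w : Gd d} {i : Fin d} (hi : w = u + un i ∨ u = w + un i) (h : (y w).1 = (y u).1 + 1) :
    ∃ N m c, Q N m c ∧ Sh 0 N (u - m) ∧ ¬ Sh 0 N (w - m) ∧ Moat N (w - m) 0 := by
  obtain ⟨⟨N, m, h1, _⟩, _⟩ := hy u
  obtain ⟨⟨N', m', h2, _⟩, _⟩ := hy w
  rcases hQ.adj (near_un u w i hi) hd h1 h2 with h3 | h3 | h3
  · exact absurd (h3.2.2.trans h) (z_ne _)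
  · refine ⟨N, m, _, h1.1, h1.2.1, h3.1, face_moat (i := i) h1.2.1 h3.1 ?_⟩
    rcases hi with rfl | rfl
    · left; abel
    · right; abel
  · rw [h] at h3
    exact absurd h3.2.2 (z_ne2 _)

/-- the cells of a unit cube have at most two first cubes -/
theorem Lam.square (hd : 0 < d) (hQ : Lam Q) {y : Gd d → Lb} (hy : ∀ g, IsLb Q g (y g))
    (g0 : Gd d) : ∃ N m c, ∀ g : Gd d, (∀ i, g0 i ≤ g i ∧ g i ≤ g0 i + 1) →
      (Sh 0 N (g - m) ∧ (y g).1 = c) ∨ (¬ Sh 0 N (g - m) ∧ (y g).1 = c + 1) := by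
  classical
  have h : ∃ N, ∃ g : Gd d, (∀ i, g0 i ≤ g i ∧ g i ≤ g0 i + 1) ∧ ∃ m c, Fst Q g N m c := by
    obtain ⟨N, m, c, h⟩ := hQ.exists_fst g0
    exact ⟨N, g0, fun i => by omega, m, c, h⟩
  obtain ⟨g, hg, m, c, h1⟩ := Nat.find_spec h
  refine ⟨Nat.find h, m, c, fun g' hg' => ?_⟩
  obtain ⟨⟨N', m', h2, _⟩, _⟩ := hy g'
  have hn : ∀ i, |g i - g' i| ≤ 1 := fun i => by
    have e1 := hg i
    have e2 := hg' i
    rw [abs_le]
    omega
  rcases hQ.adj hn hd h1 h2 with h3 | h3 | h3
  · left
    refine ⟨?_, h3.2.2.symm⟩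
    rw [h3.1, h3.2.1]
    exact h2.2.1
  · exact Or.inr ⟨h3.1, h3.2.2⟩
  · exfalso
    have h4 := Nat.find_min' h ⟨g', hg', m', _, h2⟩
    have h5 := h3.2.1 ⟨0, hd⟩
    have h6 := mg_two d N'
    omega

theorem Lam.bconf (hd : 0 < d) (hQ : Lam Q) (y : Gd d → Lb) (hy : ∀ g, IsLb Q g (y g)) :
    BConf y := by
  constructor
  · intro g i he
    obtain ⟨⟨N, m, h1, b1⟩, _⟩ := hy g
    obtain ⟨⟨N', m', h2, b2⟩, _⟩ := hy (g + un i)
    rcases hQ.adj (near_un g (g + un i) i (Or.inl rfl)) hd h1 h2 with h3 | h3 | h3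
    · rw [b1, b2, ← h3.2.1]
      have hs : ∑ k, (g + un i - m) k = ∑ k, (g - m) k + 1 := by
        have e1 : ∀ k, (g + un i - m) k = (g - m) k + un i k := fun k => by
          simp only [Pi.add_apply, Pi.sub_apply]
          ring
        simp only [e1, Finset.sum_add_distrib]
        congr 1
        unfold un
        rw [Finset.sum_pi_single']
        simp
      rw [hs, par_succ]
      cases par (∑ k, (g - m) k) <;> simp
    · exact absurd (he.trans h3.2.2) (z_ne _)
    · exact absurd (he.symm.trans h3.2.2) (z_ne _)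
  · intro g i j hij
    obtain ⟨N, m, c, h⟩ := hQ.square hd hy g
    have c0 : ∀ k, g k ≤ g k ∧ g k ≤ g k + 1 := fun k => by omega
    have c1 : ∀ k, g k ≤ (g + un i) k ∧ (g + un i) k ≤ g k + 1 := fun k => by
      rw [Pi.add_apply, un_ap]
      split_ifs <;> omega
    have c3 : ∀ k, g k ≤ (g + un j) k ∧ (g + un j) k ≤ g k + 1 := fun k => by
      rw [Pi.add_apply, un_ap]
      split_ifs <;> omega
    have c2 : ∀ k, g k ≤ (g + un i + un j) k ∧ (g + un i + un j) k ≤ g k + 1 := fun k => by
      rw [Pi.add_apply, Pi.add_apply, un_ap, un_ap]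
      by_cases e1 : k = i
      · rw [if_pos e1, if_neg (fun h => hij (e1.symm.trans h))]
        omega
      · rw [if_neg e1]
        split_ifs <;> omega
    have s1 : Sh 0 N (g - m) → Sh 0 N (g + un i + un j - m) →
        Sh 0 N (g + un i - m) ∧ Sh 0 N (g + un j - m) := by
      intro u v
      refine ⟨fun k => ?_, fun k => ?_⟩
      · have u1 := u k
        have v1 := v k
        simp only [Pi.sub_apply, Pi.add_apply, un_ap] at u1 v1 ⊢
        split_ifs at v1 ⊢ <;> omega
      · have u1 := u k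
        have v1 := v k
        simp only [Pi.sub_apply, Pi.add_apply, un_ap] at u1 v1 ⊢
        split_ifs at v1 ⊢ <;> omega
    have s2 : Sh 0 N (g + un i - m) → Sh 0 N (g + un j - m) →
        Sh 0 N (g - m) ∧ Sh 0 N (g + un i + un j - m) := by
      intro u v
      refine ⟨fun k => ?_, fun k => ?_⟩
      · have u1 := u k
        have v1 := v k
        simp only [Pi.sub_apply, Pi.add_apply, un_ap] at u1 v1 ⊢
        by_cases e1 : k = i
        · rw [if_neg (fun h => hij (e1.symm.trans h))] at v1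
          omega
        · rw [if_neg e1] at u1
          omega
      · have u1 := u k
        have v1 := v k
        simp only [Pi.sub_apply, Pi.add_apply, un_ap] at u1 v1 ⊢
        by_cases e1 : k = i
        · rw [if_pos e1] at u1
          rw [if_pos e1, if_neg (fun h => hij (e1.symm.trans h))]
          omega
        · rw [if_neg e1]
          split_ifs at v1 ⊢ <;> omega
    have key : ∀ p : Gd d, (∀ k, g k ≤ p k ∧ p k ≤ g k + 1) →
        ((y p).1 = c ∨ (y p).1 = c + 1) ∧ ((y p).1 = c ↔ Sh 0 N (p - m)) := by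
      intro p hp
      rcases h p hp with ⟨a1, a2⟩ | ⟨a1, a2⟩
      · exact ⟨Or.inl a2, ⟨fun _ => a1, fun _ => a2⟩⟩
      · refine ⟨Or.inr a2, ⟨fun h => ?_, fun h => absurd h a1⟩⟩
        rw [a2] at h
        exact absurd h.symm (z_ne c)
    refine ⟨c, (key _ c0).1, (key _ c1).1, (key _ c2).1, (key _ c3).1, ?_, ?_⟩
    · intro u v
      obtain ⟨w1, w2⟩ := s1 ((key _ c0).2.1 u) ((key _ c2).2.1 v)
      exact ⟨(key _ c1).2.2 w1, (key _ c3).2.2 w2⟩
    · intro u v
      obtain ⟨w1, w2⟩ := s2 ((key _ c1).2.1 u) ((key _ c3).2.1 v)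
      exact ⟨(key _ c0).2.2 w1, (key _ c2).2.2 w2⟩
  · intro u w i hi h
    obtain ⟨N, m, c, h1, h2, h3, h4⟩ := hQ.exit_cube hd hy hi h
    refine ⟨?_, ?_⟩
    · by_contra hcon
      obtain ⟨s, hs⟩ := Option.ne_none_iff_exists'.1 hcon
      obtain ⟨N', m', c', t, a1, a2, _⟩ := ((hy u).2 s).1 hs
      exact hQ.no_moat (near_un u w i hi) h1 a1 h2 h3 a2
    · exact ((hy w).2 0).2 ⟨N, m, c, 0, h1, h4, by simp⟩
  · intro v i j hij u w huw k hv hu hp hp'
    obtain ⟨N, m, c, t, a1, a2, a3⟩ := ((hy v).2 k).1 hv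
    have hnear : ∀ g : Gd d, (∀ l, |v l - g l| ≤ 1) → ∀ s, (y g).2.2 = some s →
        ∃ t', Moat N (g - m) t' ∧ ((t' : ℤ) : ZMod 3) = s := by
      intro g hg s hs
      obtain ⟨N', m', c', t', b1, b2, b3⟩ := ((hy g).2 s).1 hs
      obtain ⟨rfl, rfl, rfl⟩ := hQ.moat_cube hg a1 b1 a2 b2
      exact ⟨t', b2, b3⟩
    obtain ⟨t1, p1, _⟩ := hnear (v + un j) (near_un _ _ j (Or.inl rfl)) k hp
    obtain ⟨t2, p2, _⟩ := hnear (v - un j) (near_un _ _ j (Or.inr (by abel))) k hp'
    obtain ⟨i0, hi0⟩ := a2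
    have hout := moatI_out hi0
    have hvu : ∀ l, |v l - u l| ≤ 1 := by
      rcases huw with ⟨rfl, _⟩ | ⟨rfl, _⟩
      · exact near_un _ _ i (Or.inr (by abel))
      · exact near_un _ _ i (Or.inl rfl)
    -- `u` is in the cube or in the moat at a lower height
    have hu' : Sh 0 N (u - m) ∨ ∃ t3, Moat N (u - m) t3 ∧ ((t3 : ℤ) : ZMod 3) = k - 1 := by
      rcases hu with ⟨_, hu⟩ | hu
      · left
        have hi : v = u + un i ∨ u = v + un i := by
          rcases huw with ⟨rfl, _⟩ | ⟨rfl, _⟩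
          · left; abel
          · right; rfl
        obtain ⟨N', m', c', b1, b2, _, b4⟩ := hQ.exit_cube hd hy hi hu
        obtain ⟨rfl, rfl, rfl⟩ := hQ.moat_cube (fun l => by simp) a1 b1 ⟨i0, hi0⟩ b4
        exact b2
      · right
        exact hnear u hvu _ hu
    by_cases hii : i0 = i
    · subst hii
      have hstep := moat_step (Ne.symm hij) hi0 (p := v + un j - m) (p' := v - un j - m)
        (by abel) (by abel) p1 p2
      have hgoal : ∀ w' : Gd d, (∀ l, l ≠ i0 → w' l = v l) →
          ((w' - m) i0 = N + (t + 1) ∨ (w' - m) i0 = -1 - (t + 1)) →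
          (y w').2.2 = some (k + 1) := by
        intro w' e1 e2
        refine ((hy w').2 (k + 1)).2 ⟨N, m, c, t + 1, a1, ⟨i0, ?_, e2, ?_, ?_⟩, ?_⟩
        · have := hi0.1
          omega
        · intro l hl
          have := hi0.2.2.1 l hl
          simp only [Pi.sub_apply] at this ⊢
          rw [e1 l hl]
          exact this
        · refine hstep.trans (le_of_eq (Finset.sum_congr rfl fun l hl => ?_))
          simp only [Pi.sub_apply]
          rw [e1 l (Finset.ne_of_mem_erase hl)]
        · push_cast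
          rw [a3]
      have hz : ∀ s : ℤ, s = t + 1 → ((s : ℤ) : ZMod 3) = k - 1 → False := by
        intro s hs h1
        rw [hs] at h1
        push_cast at h1
        rw [a3] at h1
        exact z_pm k h1
      have e0 := hi0.2.1
      have et := hi0.1
      simp only [Pi.sub_apply] at e0
      rcases huw with ⟨hu1, hw1⟩ | ⟨hu1, hw1⟩
      · rcases e0 with e0 | e0
        · refine hgoal w (fun l hl => ?_) (Or.inl ?_)
          · rw [hw1, Pi.add_apply, un_ap, if_neg hl, add_zero]
          · rw [hw1, Pi.sub_apply, Pi.add_apply, un_ap, if_pos rfl]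
            omega
        · exfalso
          have e1 : (u - m) i0 = -1 - (t + 1) := by
            rw [hu1, Pi.sub_apply, Pi.sub_apply, un_ap, if_pos rfl]
            omega
          rcases hu' with h1 | ⟨t3, h1, h2⟩
          · have := h1 i0
            omega
          · have h3 := moat_of_out (i := i0) h1 (by omega)
            have h4 := h3.1
            have h5 := h3.2.1
            exact hz t3 (by omega) h2
      · rcases e0 with e0 | e0
        · exfalso
          have e1 : (u - m) i0 = N + (t + 1) := by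
            rw [hu1, Pi.sub_apply, Pi.add_apply, un_ap, if_pos rfl]
            omega
          rcases hu' with h1 | ⟨t3, h1, h2⟩
          · have := h1 i0
            omega
          · have h3 := moat_of_out (i := i0) h1 (by omega)
            have h4 := h3.1
            have h5 := h3.2.1
            exact hz t3 (by omega) h2
        · refine hgoal w (fun l hl => ?_) (Or.inr ?_)
          · rw [hw1, Pi.sub_apply, un_ap, if_neg hl, sub_zero]
          · rw [hw1, Pi.sub_apply, Pi.sub_apply, un_ap, if_pos rfl]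
            omega
    · exfalso
      have e1 : (u - m) i0 = (v - m) i0 := by
        rcases huw with ⟨rfl, _⟩ | ⟨rfl, _⟩ <;>
          simp only [Pi.sub_apply, Pi.add_apply, un_ap, if_neg hii] <;> ring
      rcases hu' with h1 | ⟨t3, h1, h2⟩
      · have h2 := h1 i0
        rw [e1] at h2
        omega
      · have h3 := moat_of_out (i := i0) h1 (by rw [e1]; exact hout)
        have h4 := h3.1
        have h5 := h3.2.1
        rw [e1] at h5
        have h6 := hi0.1
        have h7 := hi0.2.1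
        have h8 : t3 = t := by omega
        rw [h8, a3] at h2
        exact z_m k h2

end BM
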