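import Pool.Agent.Helper33.BM.Fam

/-!
# BM: gadgets

A gadget with side `N` at `m`: `x = true` on the outer layer of the cube, `false` on the next two layers and on the
annulus with width `2 of_3` around the cube.  Two gadgets are equal, or the smaller one with its margin `of_3` is inside
the cube of the larger one, or the margins are disjoint.
-/

set_option autoImplicit false

namespace BM

open EB NI

/-- the side of the `k`-th cube of a packet -/
def sd (d N : ℕ) : ℕ → ℕ
  | 0 => N
  | k + 1 => sd d N k + 2 * (d * sd d N k + 3)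

/-- the offset of the `k`-th cube of a packet -/
def of (d N : ℕ) : ℕ → ℕ
  | 0 => 0
  | k + 1 => of d N k + (d * sd d N k + 3)

theorem sd_of (d N k : ℕ) : sd d N k = N + 2 * of d N k := by
  induction k with
  | zero => rfl
  | succ k ih =>
    change sd d N k + 2 * (d * sd d N k + 3) = N + 2 * (of d N k + (d * sd d N k + 3))
    omega

theorem sd_mono {d N N' : ℕ} (h : N ≤ N') (k : ℕ) : sd d N k ≤ sd d N' k := by
  induction k with
  | zero => exact h
  | succ k ih =>
    change sd d N k + 2 * (d * sd d N k + 3) ≤ sd d N' k + 2 * (d * sd d N' k + 3)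
    have := Nat.mul_le_mul_left d ih
    omega

theorem of_mono {d N N' : ℕ} (h : N ≤ N') (k : ℕ) : of d N k ≤ of d N' k := by
  induction k with
  | zero => exact le_rfl
  | succ k ih =>
    change of d N k + (d * sd d N k + 3) ≤ of d N' k + (d * sd d N' k + 3)
    have := Nat.mul_le_mul_left d (sd_mono (d := d) h k)
    omega

/-- the packet `(N, m)` is inside the cube `(N', m')` -/
def PIns {d : ℕ} (N : ℕ) (m : Gd d) (N' : ℕ) (m' : Gd d) : Prop :=
  ∀ i, m' i + 1 + of d N 3 ≤ m i ∧ m i + N + of d N 3 + 1 ≤ m' i + N'

/-- the packets are disjoint -/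
def PDis {d : ℕ} (N : ℕ) (m : Gd d) (N' : ℕ) (m' : Gd d) : Prop :=
  ∃ i, m i + N + of d N 3 ≤ m' i - of d N' 3 ∨ m' i + N' + of d N' 3 ≤ m i - of d N 3

/-- `x` has a gadget with side `N` at `m` -/
def Gad {d : ℕ} (x : Om d) (N : ℕ) (m : Gd d) : Prop :=
  7 ≤ N ∧ (∀ p, Sh 0 N p → ¬ Sh 1 N p → x (m + p) = true) ∧
    (∀ p, Sh 1 N p → ¬ Sh 3 N p → x (m + p) = false) ∧
    ∀ p, Sh (-(2 * of d N 3 : ℕ)) N p → ¬ Sh 0 N p → x (m + p) = false

/-- the corners of a cube -/
def cor {d : ℕ} (N : ℕ) (m : Gd d) (s : Fin d → Bool) : Gd d := fun i => if s i then m i + N - 1 else m i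

private def Gad_tri {d : ℕ} (N' : ℕ) (p : Gd d) : Prop :=
  Sh 3 N' p ∨ (Sh 0 N' p ∧ ¬ Sh 1 N' p) ∨ ¬ Sh (-(2 * of d N' 3 : ℕ)) N' p

private theorem of_pos (d N : ℕ) : 3 ≤ of d N 3 := by
  change 3 ≤ of d N 2 + (d * sd d N 2 + 3)
  omega

private theorem Gad_notSh {d : ℕ} {r : ℤ} {N : ℕ} {p : Gd d} (h : ¬ Sh r N p) :
    ∃ i, p i < r ∨ (N : ℤ) - r ≤ p i := by
  unfold Sh at h
  push Not at h
  obtain ⟨i, hi⟩ := h
  refine ⟨i, ?_⟩
  by_cases h1 : r ≤ p i
  · exact Or.inr (hi h1)
  · exact Or.inl (not_le.1 h1)

private theorem Gad_adjA {d : ℕ} {N' : ℕ} {p q : Gd d} (hq : Gad_tri N' q)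
    (hd : ∀ i, p i ≤ q i + 1 ∧ q i ≤ p i + 1) (h : Sh 3 N' p) : Sh 3 N' q := by
  have ho := of_pos d N'
  rcases hq with hq | hq | hq
  · exact hq
  · exfalso
    obtain ⟨i, hi⟩ := Gad_notSh hq.2
    have h1 := h i
    have h2 := hd i
    omega
  · exfalso
    obtain ⟨i, hi⟩ := Gad_notSh hq
    have h1 := h i
    have h2 := hd i
    omega

private theorem Gad_adjB {d : ℕ} {N' : ℕ} {p q : Gd d} (hq : Gad_tri N' q)
    (hd : ∀ i, p i ≤ q i + 1 ∧ q i ≤ p i + 1) (h : Sh 0 N' p ∧ ¬ Sh 1 N' p) :
    Sh 0 N' q ∧ ¬ Sh 1 N' q := by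
  have ho := of_pos d N'
  rcases hq with hq | hq | hq
  · exfalso
    obtain ⟨i, hi⟩ := Gad_notSh h.2
    have h1 := hq i
    have h2 := hd i
    omega
  · exact hq
  · exfalso
    obtain ⟨i, hi⟩ := Gad_notSh hq
    have h1 := h.1 i
    have h2 := hd i
    omega

private theorem Gad_adjC {d : ℕ} {N' : ℕ} {p q : Gd d} (hq : Gad_tri N' q)
    (hd : ∀ i, p i ≤ q i + 1 ∧ q i ≤ p i + 1) (h : ¬ Sh (-(2 * of d N' 3 : ℕ)) N' p) :
    ¬ Sh (-(2 * of d N' 3 : ℕ)) N' q := by
  have ho := of_pos d N'
  rcases hq with hq | hq | hq
  · exfalso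
    obtain ⟨i, hi⟩ := Gad_notSh h
    have h1 := hq i
    have h2 := hd i
    omega
  · exfalso
    obtain ⟨i, hi⟩ := Gad_notSh h
    have h1 := hq.1 i
    have h2 := hd i
    omega
  · exact hq

private theorem Gad_tri_of {d : ℕ} {x : Om d} {N' : ℕ} {m' : Gd d} (h' : Gad x N' m') (q : Gd d)
    (hx : x q = true) : Gad_tri N' (q - m') := by
  have he : m' + (q - m') = q := by abel
  unfold Gad_tri
  by_cases h3 : Sh 3 N' (q - m')
  · exact Or.inl h3
  · by_cases h1 : Sh 1 N' (q - m')
    · have h2 := h'.2.2.1 _ h1 h3
      rw [he, hx] at h2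
      exact absurd h2 (by simp)
    · by_cases h0 : Sh 0 N' (q - m')
      · exact Or.inr (Or.inl ⟨h0, h1⟩)
      · by_cases hm : Sh (-(2 * of d N' 3 : ℕ)) N' (q - m')
        · have h2 := h'.2.2.2 _ hm h0
          rw [he, hx] at h2
          exact absurd h2 (by simp)
        · exact Or.inr (Or.inr hm)

private theorem Gad_line {d : ℕ} (hd : 2 ≤ d) {x : Om d} {N : ℕ} {m : Gd d} (h : Gad x N m)
    (s : Fin d → Bool) (k : Fin d) (j : ℕ) (hj : j < N) :
    x (Function.update (cor N m s) k (m k + j)) = true := by
  have hN := h.1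
  have h1 : m + (Function.update (cor N m s) k (m k + j) - m) =
      Function.update (cor N m s) k (m k + j) := by abel
  rw [← h1]
  apply h.2.1
  · intro i
    rw [Pi.sub_apply]
    by_cases hi : i = k
    · rw [hi, Function.update_self]
      omega
    · rw [Function.update_of_ne hi]
      unfold cor
      split_ifs <;> omega
  · intro h2
    obtain ⟨i, hi⟩ : ∃ i : Fin d, i ≠ k := by
      have : Nontrivial (Fin d) := Fin.nontrivial_iff_two_le.2 hd
      exact exists_ne k
    have h3 := h2 i
    rw [Pi.sub_apply, Function.update_of_ne hi] at h3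
    unfold cor at h3
    split_ifs at h3 <;> omega

private theorem Gad_walk {d : ℕ} (hd : 2 ≤ d) {x : Om d} {N N' : ℕ} {m m' : Gd d} (h : Gad x N m)
    (h' : Gad x N' m') (T : Gd d → Prop)
    (hT : ∀ p q, Gad_tri N' q → (∀ i, p i ≤ q i + 1 ∧ q i ≤ p i + 1) → T p → T q)
    (s : Fin d → Bool) (k : Fin d) (j : ℕ) (hj : j < N) :
    (T (Function.update (cor N m s) k (m k + (0 : ℕ)) - m') ↔
      T (Function.update (cor N m s) k (m k + j) - m')) := by
  induction j with
  | zero => exact Iff.rfl
  | succ j ih =>
    rw [ih (by omega)]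
    have h1 := Gad_tri_of h' _ (Gad_line hd h s k j (by omega))
    have h2 := Gad_tri_of h' _ (Gad_line hd h s k (j + 1) hj)
    have h3 : ∀ i, (Function.update (cor N m s) k (m k + (j : ℕ)) - m') i ≤
        (Function.update (cor N m s) k (m k + ((j + 1 : ℕ) : ℤ)) - m') i + 1 ∧
        (Function.update (cor N m s) k (m k + ((j + 1 : ℕ) : ℤ)) - m') i ≤
        (Function.update (cor N m s) k (m k + (j : ℕ)) - m') i + 1 := by
      intro i
      rw [Pi.sub_apply, Pi.sub_apply]
      by_cases hi : i = k
      · rw [hi, Function.update_self, Function.update_self]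
        push_cast
        omega
      · rw [Function.update_of_ne hi, Function.update_of_ne hi]
        omega
    exact ⟨hT _ _ h2 h3, hT _ _ h1 fun i => (h3 i).symm⟩

private theorem Gad_cor {d : ℕ} {N : ℕ} {m : Gd d} (s : Fin d → Bool) (k : Fin d) (b : Bool) :
    cor N m (Function.update s k b) =
      Function.update (cor N m s) k (if b then m k + N - 1 else m k) := by
  funext i
  by_cases hi : i = k
  · rw [hi, Function.update_self]
    unfold cor
    rw [Function.update_self]
  · rw [Function.update_of_ne hi]
    unfold cor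
    rw [Function.update_of_ne hi]

private theorem Gad_all {d : ℕ} (hd : 2 ≤ d) {x : Om d} {N N' : ℕ} {m m' : Gd d} (h : Gad x N m)
    (h' : Gad x N' m') (T : Gd d → Prop)
    (hT : ∀ p q, Gad_tri N' q → (∀ i, p i ≤ q i + 1 ∧ q i ≤ p i + 1) → T p → T q)
    (s s' : Fin d → Bool) (h0 : T (cor N m s - m')) : T (cor N m s' - m') := by
  classical
  have hN := h.1
  have hval : ∀ (s : Fin d → Bool) (k : Fin d) (b : Bool),
      (T (cor N m (Function.update s k b) - m') ↔
        T (Function.update (cor N m s) k (m k + (0 : ℕ)) - m')) := by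
    intro s k b
    rw [Gad_cor]
    cases b
    · rw [if_neg (by simp), Nat.cast_zero, add_zero]
    · have h1 : (if (true : Bool) = true then m k + N - 1 else m k) = m k + ((N - 1 : ℕ) : ℤ) := by
        rw [if_pos rfl]
        omega
      rw [h1]
      exact (Gad_walk hd h h' T hT s k (N - 1) (by omega)).symm
  have step : ∀ (s : Fin d → Bool) (k : Fin d) (b : Bool), T (cor N m s - m') →
      T (cor N m (Function.update s k b) - m') := by
    intro s k b h1
    rw [hval s k b, ← hval s k (s k), Function.update_eq_self]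
    exact h1
  have key : ∀ F : Finset (Fin d), T (cor N m (fun i => if i ∈ F then s' i else s i) - m') := by
    intro F
    induction F using Finset.induction_on with
    | empty =>
      have h1 : (fun i => if i ∈ (∅ : Finset (Fin d)) then s' i else s i) = s := by
        funext i
        simp
      rw [h1]
      exact h0
    | insert k F hk ih =>
      have h1 : (fun i => if i ∈ insert k F then s' i else s i) =
          Function.update (fun i => if i ∈ F then s' i else s i) k (s' k) := by
        funext i
        by_cases hi : i = k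
        · rw [hi, Function.update_self, if_pos (Finset.mem_insert_self k F)]
        · rw [Function.update_of_ne hi]
          simp only [Finset.mem_insert, hi, false_or]
      rw [h1]
      exact step _ k (s' k) ih
  have h1 := key Finset.univ
  have h2 : (fun i => if i ∈ (Finset.univ : Finset (Fin d)) then s' i else s i) = s' := by
    funext i
    simp
  rw [h2] at h1
  exact h1

theorem gad_kind {d : ℕ} (hd : 2 ≤ d) (x : Om d) (N N' : ℕ) (m m' : Gd d) (h : Gad x N m)
    (h' : Gad x N' m') : (∀ s, Sh 3 N' (cor N m s - m')) ∨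
      (∀ s, Sh 0 N' (cor N m s - m') ∧ ¬ Sh 1 N' (cor N m s - m')) ∨
      ∀ s, ¬ Sh (-(2 * of d N' 3 : ℕ)) N' (cor N m s - m') := by
  have hN := h.1
  have k0 : Fin d := ⟨0, by omega⟩
  have h0 : Gad_tri N' (cor N m (fun _ => false) - m') := by
    apply Gad_tri_of h'
    have h1 := Gad_line hd h (fun _ => false) k0 0 (by omega)
    have h2 : Function.update (cor N m fun _ => false) k0 (m k0 + ((0 : ℕ) : ℤ)) =
        cor N m fun _ => false := by
      have h3 := Gad_cor (N := N) (m := m) (fun _ => false) k0 false
      rw [if_neg (by simp)] at h3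
      rw [Nat.cast_zero, add_zero, ← h3]
      congr 1
      funext i
      by_cases hi : i = k0
      · rw [hi, Function.update_self]
      · rw [Function.update_of_ne hi]
    rw [h2] at h1
    exact h1
  rcases h0 with h0 | h0 | h0
  · left
    intro s
    exact Gad_all hd h h' (fun p => Sh 3 N' p) (fun p q hq hd' h1 => Gad_adjA hq hd' h1) _ s h0
  · right
    left
    intro s
    exact Gad_all hd h h' (fun p => Sh 0 N' p ∧ ¬ Sh 1 N' p)
      (fun p q hq hd' h1 => Gad_adjB hq hd' h1) _ s h0
  · right
    right
    intro s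
    exact Gad_all hd h h' (fun p => ¬ Sh (-(2 * of d N' 3 : ℕ)) N' p)
      (fun p q hq hd' h1 => Gad_adjC hq hd' h1) _ s h0

theorem gad_nest {d : ℕ} (hd : 2 ≤ d) (x : Om d) (N N' : ℕ) (m m' : Gd d) (h : Gad x N m)
    (h' : Gad x N' m') (hN : N ≤ N') : (N = N' ∧ m = m') ∨ PIns N m N' m' ∨ PDis N m N' m' := by
  have h7 := h.1
  have ho := of_mono (d := d) hN 3
  rcases gad_kind hd x N N' m m' h h' with h1 | h1 | h1
  · right
    left
    have hb : ∀ i, m' i + 3 ≤ m i ∧ m i + N + 3 ≤ m' i + N' := by
      intro i
      have h2 := h1 (fun _ => false) i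
      have h3 := h1 (fun _ => true) i
      simp only [Pi.sub_apply, cor] at h2 h3
      rw [if_neg (by simp)] at h2
      rw [if_pos trivial] at h3
      omega
    -- a point `p` of the outer layer of the larger cube, over the smaller one
    have key : ∀ (i : Fin d) (v : ℤ), (v = m' i ∨ v = m' i + N' - 1) →
        v - m i < -(2 * of d N 3 : ℕ) ∨ N + (2 * of d N 3 : ℕ) ≤ v - m i := by
      intro i v hv
      by_contra hcon
      push Not at hcon
      have e1 : m' + (Function.update m i v - m') = Function.update m i v := by abel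
      have e2 : m + (Function.update m i v - m) = Function.update m i v := by abel
      have hx : x (Function.update m i v) = true := by
        rw [← e1]
        apply h'.2.1
        · intro k
          have := hb k
          rw [Pi.sub_apply]
          by_cases hk : k = i
          · rw [hk] at this ⊢
            rw [Function.update_self]
            omega
          · rw [Function.update_of_ne hk]
            omega
        · intro hs
          have := hs i
          rw [Pi.sub_apply, Function.update_self] at this
          omega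
      have hx' : x (Function.update m i v) = false := by
        rw [← e2]
        apply h.2.2.2
        · intro k
          rw [Pi.sub_apply]
          by_cases hk : k = i
          · rw [hk, Function.update_self]
            omega
          · rw [Function.update_of_ne hk]
            omega
        · intro hs
          have h3 := hs i
          have h4 := hb i
          rw [Pi.sub_apply, Function.update_self] at h3
          omega
      rw [hx] at hx'
      exact absurd hx' (by simp)
    intro i
    have k1 := key i (m' i) (Or.inl rfl)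
    have k2 := key i (m' i + N' - 1) (Or.inr rfl)
    have k3 := hb i
    push_cast at k1 k2
    omega
  · left
    have hb : ∀ i, m' i ≤ m i ∧ m i + N ≤ m' i + N' := by
      intro i
      have h2 := (h1 (fun _ => false)).1 i
      have h3 := (h1 (fun _ => true)).1 i
      simp only [Pi.sub_apply, cor] at h2 h3
      rw [if_neg (by simp)] at h2
      rw [if_pos trivial] at h3
      omega
    have hNN : N = N' := by
      by_contra hne
      apply (h1 (fun i => decide (m i = m' i))).2
      intro i
      have h2 := hb i
      simp only [Pi.sub_apply, cor, decide_eq_true_eq]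
      split_ifs with h3 <;> omega
    refine ⟨hNN, ?_⟩
    funext i
    have h2 := hb i
    omega
  · right
    right
    by_contra hA
    unfold PDis at hA
    push Not at hA
    apply h1 (fun i => decide (m i < m' i - 2 * of d N' 3))
    intro i
    have h2 := hA i
    simp only [Pi.sub_apply, cor, decide_eq_true_eq]
    push_cast
    split_ifs with h3 <;> omega

end BM
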