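import Pool.Agent.Helper33.BM.Pack
import Pool.Agent.Helper33.BM.FamC

/-!
# BM: the labelling on the space
-/

set_option autoImplicit false

namespace BM

open EB NI

variable {d : ℕ} {X : Type} [MeasurableSpace X]

/-- the family seen from `x` -/
def Fx (a : FreeAct d X) (I : ℕ → Set X) (x : X) : ℕ → Gd d → ZMod 3 → Prop := Fam (Jx a I x)

private theorem fx_shift (a : FreeAct d X) (I : ℕ → Set X) (x : X) (g : Gd d) (N : ℕ) (m : Gd d)
    (c : ZMod 3) : Fx a I (a.T g x) N m c ↔ Fx a I x N (m + g) c := by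
  unfold Fx Fam
  constructor
  · rintro ⟨N₀, m₀, k, h1, h2, h3, h4, h5⟩
    refine ⟨N₀, m₀ + g, k, ?_, h2, h3, ?_, h5⟩
    · unfold Jx at h1 ⊢
      rw [a.add]
      exact h1
    · rw [h4]
      funext i
      simp only [crn, Pi.add_apply]
      ring
  · rintro ⟨N₀, m₀, k, h1, h2, h3, h4, h5⟩
    refine ⟨N₀, m₀ - g, k, ?_, h2, h3, ?_, h5⟩
    · unfold Jx at h1 ⊢
      rw [← a.add, sub_add_cancel]
      exact h1
    · funext i
      have h6 := congrFun h4 i
      simp only [crn, Pi.add_apply, Pi.sub_apply] at h6 ⊢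
      linarith

private theorem isLb_shift (a : FreeAct d X) (I : ℕ → Set X) (x : X) (g : Gd d) (y : Lb)
    (h : IsLb (Fx a I (a.T g x)) 0 y) : IsLb (Fx a I x) g y := by
  obtain ⟨⟨N, m, ⟨h1, h2, h3⟩, h4⟩, h5⟩ := h
  have e1 : g - (m + g) = 0 - m := by abel
  refine ⟨⟨N, m + g, ⟨(fx_shift a I x g N m _).1 h1, ?_, ?_⟩, ?_⟩, fun s => (h5 s).trans ?_⟩
  · rw [e1]
    exact h2
  · intro N' m' c' q1 q2
    refine h3 N' (m' - g) c' ?_ ?_
    · rw [fx_shift, sub_add_cancel]
      exact q1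
    · have e2 : 0 - (m' - g) = g - m' := by abel
      rw [e2]
      exact q2
  · rw [e1]
    exact h4
  · constructor
    · rintro ⟨N', m', c', t, q1, q2, q3⟩
      have e2 : g - (m' + g) = 0 - m' := by abel
      refine ⟨N', m' + g, c', t, (fx_shift a I x g N' m' c').1 q1, ?_, q3⟩
      rw [e2]
      exact q2
    · rintro ⟨N', m', c', t, q1, q2, q3⟩
      have e2 : 0 - (m' - g) = g - m' := by abel
      refine ⟨N', m' - g, c', t, ?_, ?_, q3⟩
      · rw [fx_shift, sub_add_cancel]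
        exact q1
      · rw [e2]
        exact q2

private theorem ms_fx (a : FreeAct d X) (I : ℕ → Set X) (hI : ∀ N, MeasurableSet (I N)) (N : ℕ)
    (m : Gd d) (c : ZMod 3) : MeasurableSet {x | Fx a I x N m c} := by
  have h1 : ∀ N m, MeasurableSet {x | Jx a I x N m} := fun N m => a.meas m (hI N)
  have h2 : {x | Fx a I x N m c} = ⋃ (N₀ : ℕ), ⋃ (m₀ : Gd d), ⋃ (k : ℕ),
      ({x | Jx a I x N₀ m₀} ∩ {_x | k < 3 ∧ N = sd d N₀ k ∧ m = crn N₀ m₀ k ∧ c = (k : ZMod 3)}) := by
    ext x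
    simp only [Set.mem_ofPred_eq, Set.mem_iUnion, Set.mem_inter_iff]
    unfold Fx Fam
    exact Iff.rfl
  rw [h2]
  exact MeasurableSet.iUnion fun N₀ => MeasurableSet.iUnion fun m₀ => MeasurableSet.iUnion fun k =>
    (h1 N₀ m₀).inter (MeasurableSet.const _)

private theorem ms_isLb (a : FreeAct d X) (I : ℕ → Set X) (hI : ∀ N, MeasurableSet (I N)) (g : Gd d)
    (y : Lb) : MeasurableSet {x | IsLb (Fx a I x) g y} := by
  have h1 := ms_fx a I hI
  have h2 : ∀ N m c, MeasurableSet {x | Fst (Fx a I x) g N m c} := by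
    intro N m c
    have e : {x | Fst (Fx a I x) g N m c} = ({x | Fx a I x N m c} ∩ {_x | Sh 0 N (g - m)}) ∩
        ⋂ (N' : ℕ), ⋂ (m' : Gd d), ⋂ (c' : ZMod 3), ({x | Fx a I x N' m' c'}ᶜ ∪
          {_x | Sh 0 N' (g - m') → N ≤ N'}) := by
      ext x
      simp only [Set.mem_ofPred_eq, Set.mem_inter_iff, Set.mem_iInter, Set.mem_union,
        Set.mem_compl_iff]
      unfold Fst
      constructor
      · rintro ⟨q1, q2, q3⟩
        refine ⟨⟨q1, q2⟩, fun N' m' c' => ?_⟩
        by_cases q : Fx a I x N' m' c'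
        · exact Or.inr (q3 N' m' c' q)
        · exact Or.inl q
      · rintro ⟨⟨q1, q2⟩, q3⟩
        refine ⟨q1, q2, fun N' m' c' q => ?_⟩
        rcases q3 N' m' c' with q5 | q5
        · exact absurd q q5
        · exact q5
    rw [e]
    refine ((h1 N m c).inter (MeasurableSet.const _)).inter ?_
    refine MeasurableSet.iInter fun N' => MeasurableSet.iInter fun m' =>
      MeasurableSet.iInter fun c' => ?_
    exact (h1 N' m' c').compl.union (MeasurableSet.const _)
  have h3 : ∀ s, MeasurableSet {x | InM (Fx a I x) g s} := by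
    intro s
    have e : {x | InM (Fx a I x) g s} = ⋃ (N : ℕ), ⋃ (m : Gd d), ⋃ (c : ZMod 3), ⋃ (t : ℤ),
        ({x | Fx a I x N m c} ∩ {_x | Moat N (g - m) t ∧ (t : ZMod 3) = s}) := by
      ext x
      simp only [Set.mem_ofPred_eq, Set.mem_iUnion, Set.mem_inter_iff]
      unfold InM
      exact Iff.rfl
    rw [e]
    exact MeasurableSet.iUnion fun N => MeasurableSet.iUnion fun m => MeasurableSet.iUnion fun c =>
      MeasurableSet.iUnion fun t => (h1 N m c).inter (MeasurableSet.const _)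
  have e : {x | IsLb (Fx a I x) g y} = (⋃ (N : ℕ), ⋃ (m : Gd d),
      ({x | Fst (Fx a I x) g N m y.1} ∩ {_x | y.2.1 = par (∑ i, (g - m) i)})) ∩
      ⋂ (s : ZMod 3), (({_x | y.2.2 = some s} ∩ {x | InM (Fx a I x) g s}) ∪
        ({_x | ¬ y.2.2 = some s} ∩ {x | InM (Fx a I x) g s}ᶜ)) := by
    ext x
    simp only [Set.mem_ofPred_eq, Set.mem_iUnion, Set.mem_inter_iff, Set.mem_iInter,
      Set.mem_union, Set.mem_compl_iff]
    unfold IsLb
    refine and_congr Iff.rfl (forall_congr' fun s => ?_)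
    tauto
  rw [e]
  refine MeasurableSet.inter (MeasurableSet.iUnion fun N => MeasurableSet.iUnion fun m =>
    (h2 N m y.1).inter (MeasurableSet.const _)) (MeasurableSet.iInter fun s => ?_)
  exact ((MeasurableSet.const _).inter (h3 s)).union ((MeasurableSet.const _).inter (h3 s).compl)

theorem lab_space (hd : 0 < d) (a : FreeAct d X) (I : ℕ → Set X)
    (hI : ∀ N, MeasurableSet (I N)) (C : Set X) (hC : Inv a C) (h : ∀ x ∈ C, Pk (Jx a I x)) :
    ∃ F : C → Lb, Ms F ∧ ∀ x : C, BConf fun g => F ⟨a.T g x.1, hC g x.1 x.2⟩ := by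
  have hL : ∀ x : C, ∃! y, IsLb (Fx a I x.1) 0 y := fun x =>
    ((h x.1 x.2).lam hd).exists_unique hd 0
  have hF : ∀ x : C, IsLb (Fx a I x.1) 0 (hL x).choose := fun x => (hL x).choose_spec.1
  have hU : ∀ (x : C) (c : Lb), IsLb (Fx a I x.1) 0 c → c = (hL x).choose := fun x c hc =>
    (hL x).choose_spec.2 c hc
  refine ⟨fun x => (hL x).choose, ?_, ?_⟩
  · intro c
    have e : {x : C | (hL x).choose = c} = Subtype.val ⁻¹' {x | IsLb (Fx a I x) 0 c} := by
      ext x
      simp only [Set.mem_ofPred_eq, Set.mem_preimage]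
      constructor
      · intro q
        rw [← q]
        exact hF x
      · intro q
        exact (hU x c q).symm
    rw [e]
    exact measurable_subtype_coe (ms_isLb a I hI 0 c)
  · intro x
    refine ((h x.1 x.2).lam hd).bconf hd _ fun g => ?_
    exact isLb_shift a I x.1 g _ (hF ⟨a.T g x.1, hC g x.1 x.2⟩)

end BM
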