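import Pool.Agent.Helper33.BM.Gad
import Pool.Agent.Helper33.BM.FamB

/-!
# BM: packets of three cubes

A system of packets `J N m` gives the family of the cubes `k = 0, 1, 2` (side `sd k`, corner `m - of k`, color `k`).
-/

set_option autoImplicit false

namespace BM

open EB NI

/-- a system of packets -/
structure Pk {d : ℕ} (J : ℕ → Gd d → Prop) : Prop where
  pos : ∀ N m, J N m → 1 ≤ N
  nest : ∀ N m N' m', J N m → J N' m' → N ≤ N' → (N = N' ∧ m = m') ∨ PIns N m N' m' ∨ PDis N m N' m'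
  cov : ∀ g, ∃ N m, J N m ∧ Sh 0 N (g - m)

/-- the corner of the `k`-th cube -/
def crn {d : ℕ} (N : ℕ) (m : Gd d) (k : ℕ) : Gd d := fun i => m i - of d N k

/-- the family of the cubes of the packets -/
def Fam {d : ℕ} (J : ℕ → Gd d → Prop) (N : ℕ) (m : Gd d) (c : ZMod 3) : Prop :=
  ∃ N₀ m₀ k, J N₀ m₀ ∧ k < 3 ∧ N = sd d N₀ k ∧ m = crn N₀ m₀ k ∧ c = (k : ZMod 3)

theorem of_succ (d N k : ℕ) : (of d N (k + 1) : ℤ) = of d N k + mg d (sd d N k) + 1 := by
  change ((of d N k + (d * sd d N k + 3) : ℕ) : ℤ) = _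
  unfold mg
  push_cast
  ring

theorem of_le {d N k l : ℕ} (h : k ≤ l) : of d N k ≤ of d N l := by
  induction l, h using Nat.le_induction with
  | base => exact le_rfl
  | succ l _ ih => exact ih.trans (Nat.le_add_right _ _)

theorem sd_le {d N k l : ℕ} (h : k ≤ l) : sd d N k ≤ sd d N l := by
  have := of_le (d := d) (N := N) h
  rw [sd_of, sd_of]
  omega

theorem sd_lt {d N k l : ℕ} (h : k < l) : sd d N k < sd d N l := by
  have h1 := sd_le (d := d) (N := N) (Nat.succ_le_of_lt h)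
  have h2 : sd d N (k + 1) = sd d N k + 2 * (d * sd d N k + 3) := rfl
  rw [Nat.succ_eq_add_one] at h1
  omega

/-- two cubes of a packet -/
theorem ins_same {d : ℕ} (N : ℕ) (m : Gd d) {k l : ℕ} (h : k < l) :
    Ins (sd d N k) (crn N m k) (sd d N l) (crn N m l) := by
  have h1 := of_succ d N k
  have h2 := of_le (d := d) (N := N) (Nat.succ_le_of_lt h)
  rw [Nat.succ_eq_add_one] at h2
  have h3 := sd_of d N k
  have h4 := sd_of d N l
  intro i
  unfold crn
  omega

/-- the margin of a cube is in the margin of the packet -/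
theorem mar {d : ℕ} (N : ℕ) {k : ℕ} (hk : k < 3) :
    (of d N k : ℤ) + mg d (sd d N k) + 1 ≤ of d N 3 := by
  have h1 := of_succ d N k
  have h2 := of_le (d := d) (N := N) (Nat.succ_le_of_lt hk)
  rw [Nat.succ_eq_add_one] at h2
  omega

theorem ins_diff {d : ℕ} {N N' : ℕ} {m m' : Gd d} (h : PIns N m N' m') {k k' : ℕ} (hk : k < 3) :
    Ins (sd d N k) (crn N m k) (sd d N' k') (crn N' m' k') := by
  have h1 := mar (d := d) N hk
  have h3 := sd_of d N k
  have h4 := sd_of d N' k'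
  intro i
  have h5 := h i
  unfold crn
  omega

theorem dis_diff {d : ℕ} {N N' : ℕ} {m m' : Gd d} (h : PDis N m N' m') {k k' : ℕ} (hk : k < 3)
    (hk' : k' < 3) : Dis (sd d N k) (crn N m k) (sd d N' k') (crn N' m' k') := by
  have h1 := mar (d := d) N hk
  have h2 := mar (d := d) N' hk'
  have h3 := sd_of d N k
  have h4 := sd_of d N' k'
  obtain ⟨i, h5⟩ := h
  refine ⟨i, ?_⟩
  unfold crn
  omega

theorem ins_lt {d : ℕ} (hd : 0 < d) {N N' : ℕ} {m m' : Gd d} (h : Ins N m N' m') : N < N' := by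
  have h1 := h ⟨0, hd⟩
  have h2 := mg_two d N
  omega

theorem ins_dis {d : ℕ} (hd : 0 < d) {N N' : ℕ} {m m' : Gd d} (hN : 1 ≤ N) (h : Ins N m N' m')
    (h' : Dis N m N' m') : False := by
  have h2 := mg_two d N
  have h3 := mg_two d N'
  obtain ⟨i, h'⟩ := h'
  have h1 := h i
  omega

theorem ins_asymm {d : ℕ} (hd : 0 < d) {N N' : ℕ} {m m' : Gd d} (h : Ins N m N' m')
    (h' : Ins N' m' N m) : False := by
  have h1 := ins_lt hd h
  have h2 := ins_lt hd h'
  omega

theorem dis_symm {d : ℕ} {N N' : ℕ} {m m' : Gd d} (h : Dis N m N' m') : Dis N' m' N m := by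
  obtain ⟨i, h⟩ := h
  exact ⟨i, h.symm⟩

variable {d : ℕ} {J : ℕ → Gd d → Prop}

/-- two cubes of the family -/
theorem Pk.rel (hJ : Pk J) {N₀ N₁ : ℕ} {m₀ m₁ : Gd d} (h : J N₀ m₀) (h' : J N₁ m₁) :
    (N₀ = N₁ ∧ m₀ = m₁) ∨ PIns N₀ m₀ N₁ m₁ ∨ PIns N₁ m₁ N₀ m₀ ∨ PDis N₀ m₀ N₁ m₁ := by
  rcases le_total N₀ N₁ with hN | hN
  · rcases hJ.nest N₀ m₀ N₁ m₁ h h' hN with h1 | h1 | h1
    · exact Or.inl h1
    · exact Or.inr (Or.inl h1)
    · exact Or.inr (Or.inr (Or.inr h1))
  · rcases hJ.nest N₁ m₁ N₀ m₀ h' h hN with h1 | h1 | h1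
    · exact Or.inl ⟨h1.1.symm, h1.2.symm⟩
    · exact Or.inr (Or.inr (Or.inl h1))
    · obtain ⟨i, h1⟩ := h1
      exact Or.inr (Or.inr (Or.inr ⟨i, h1.symm⟩))

theorem Pk.lam (hd : 0 < d) (hJ : Pk J) : Lam (Fam J) := by
  constructor
  · rintro N m c ⟨N₀, m₀, k, h1, _, rfl, _, _⟩
    have h2 := hJ.pos N₀ m₀ h1
    rw [sd_of]
    omega
  · rintro N m c N' m' c' ⟨N₀, m₀, k, h1, hk, rfl, rfl, rfl⟩ ⟨N₁, m₁, l, h2, hl, rfl, rfl, rfl⟩ hN
    rcases hJ.rel h1 h2 with ⟨rfl, rfl⟩ | h3 | h3 | h3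
    · rcases lt_trichotomy k l with h4 | h4 | h4
      · exact Or.inr (Or.inl (ins_same N₀ m₀ h4))
      · rw [h4]
        exact Or.inl ⟨rfl, rfl, rfl⟩
      · exact absurd hN (not_le.2 (sd_lt h4))
    · exact Or.inr (Or.inl (ins_diff h3 hk))
    · have h4 := ins_lt hd (ins_diff (k := l) (k' := k) h3 hl)
      omega
    · exact Or.inr (Or.inr (dis_diff h3 hk hl))
  · intro g
    obtain ⟨N, m, h1, h2⟩ := hJ.cov g
    refine ⟨N, m, 0, ⟨N, m, 0, h1, by omega, rfl, ?_, by simp⟩, h2⟩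
    funext i
    unfold crn
    simp [of]
  · rintro N m c N' m' c' ⟨N₀, m₀, k, h1, hk, rfl, rfl, rfl⟩ ⟨N₁, m₁, l, h2, hl, rfl, rfl, rfl⟩ hi
      hmin
    have hp : 1 ≤ sd d N₀ k := by
      have := hJ.pos N₀ m₀ h1
      rw [sd_of]
      omega
    by_cases hk2 : k + 1 < 3
    · -- the next cube of the same packet
      have h3 := hmin (sd d N₀ (k + 1)) (crn N₀ m₀ (k + 1)) ((k + 1 : ℕ) : ZMod 3)
        ⟨N₀, m₀, k + 1, h1, hk2, rfl, rfl, rfl⟩ (ins_same N₀ m₀ (Nat.lt_succ_self k))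
      rcases hJ.rel h1 h2 with ⟨rfl, rfl⟩ | h4 | h4 | h4
      · have h5 : k < l := by
          by_contra hcon
          have := sd_le (d := d) (N := N₀) (not_lt.1 hcon)
          have := ins_lt hd hi
          omega
        have h6 : l ≤ k + 1 := by
          by_contra hcon
          have := sd_lt (d := d) (N := N₀) (not_le.1 hcon)
          omega
        have h7 : l = k + 1 := by omega
        rw [h7]
        push_cast
        rfl
      · exfalso
        have := ins_lt hd (ins_diff (k := k + 1) (k' := l) h4 hk2)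
        omega
      · exact (ins_asymm hd hi (ins_diff h4 hl)).elim
      · exact (ins_dis hd hp hi (dis_diff h4 hk hl)).elim
    · -- the smallest cube of the next packet
      have hk3 : k = 2 := by omega
      rcases hJ.rel h1 h2 with ⟨rfl, rfl⟩ | h4 | h4 | h4
      · exfalso
        have := sd_le (d := d) (N := N₀) (show l ≤ k by omega)
        have := ins_lt hd hi
        omega
      · have h5 := hmin (sd d N₁ 0) (crn N₁ m₁ 0) ((0 : ℕ) : ZMod 3)
          ⟨N₁, m₁, 0, h2, by omega, rfl, rfl, rfl⟩ (ins_diff h4 hk)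
        have h6 : l = 0 := by
          by_contra hcon
          have := sd_lt (d := d) (N := N₁) (Nat.pos_of_ne_zero hcon)
          omega
        rw [h6, hk3]
        decide
      · exact (ins_asymm hd hi (ins_diff h4 hl)).elim
      · exact (ins_dis hd hp hi (dis_diff h4 hk hl)).elim

end BM
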